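import Pool.Agent.Y574.ZX.Pt
import Pool.Agent.Y92.ZX.Stm2

/-!
# ZX-PT2 (helper92): S_MEM and S_PT2 (helper427, refactoring of Pt.lean of helper574)
-/

set_option autoImplicit false
set_option linter.unusedSectionVars false

open Polynomial

namespace Pool.Agent.Y427.ZX

open Pool.Agent.Y226 Pool.Agent.Y226.ZG Pool.Agent.Y92.ZX Pool.Agent.Y574.ZX

theorem hpol_eq {A : Type} [CommRing A] {n : ℕ} (d : ℕ) (h : A[X][X]) (v w : Fin n → ℤ) :
    hpol d h v w = PV h d v w := rfl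

theorem map_mnumR {A B : Type} [CommRing A] [CommRing B] (ρ : A →+* B) {n : ℕ} (v : Fin n → ℤ) :
    MvPolynomial.map ρ (mnumR A v) = mnumR B v := by
  unfold mnumR
  rw [map_prod]
  refine Finset.prod_congr rfl fun i _ => ?_
  rw [map_pow, MvPolynomial.map_X]

theorem map_PV {A B : Type} [CommRing A] [CommRing B] (ρ : A →+* B) {n : ℕ} (h : A[X][X]) (d : ℕ)
    (v w : Fin n → ℤ) :
    MvPolynomial.map ρ (PV h d v w) = PV (h.map (mapRingHom ρ)) d v w := by
  unfold PV clrR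
  rw [map_sum]
  refine Finset.sum_congr rfl fun m _ => ?_
  simp only [map_mul, map_pow, map_mnumR, MvPolynomial.map_C, cf_map]

theorem map_E2X {A B : Type} [CommRing A] [CommRing B] (ρ : A →+* B) {n : ℕ} (i j : Fin n)
    (h : A[X][X]) :
    MvPolynomial.map ρ (E2 MvPolynomial.C (MvPolynomial.X i) (MvPolynomial.X j) h) =
      E2 MvPolynomial.C (MvPolynomial.X i) (MvPolynomial.X j) (h.map (mapRingHom ρ)) := by
  have e : (MvPolynomial.map ρ : MvPolynomial (Fin n) A →+* MvPolynomial (Fin n) B).comp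
      (MvPolynomial.C : A →+* MvPolynomial (Fin n) A) =
      (MvPolynomial.C : B →+* MvPolynomial (Fin n) B).comp ρ := by
    apply RingHom.ext
    intro a
    rw [RingHom.comp_apply, RingHom.comp_apply, MvPolynomial.map_C]
  rw [map_E2, E2_map, MvPolynomial.map_X, MvPolynomial.map_X, e]

section charts

variable {A 𝕜 : Type} [CommRing A] [Field 𝕜] {n d₀ : ℕ} {κ : Type} {π : A →+* 𝕜}
  {F : κ → MvPolynomial (Fin n × Bool) A}

/-- criterion for the ideal of the reduction in a chart -/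
theorem mem_chI' (hC : S_CHT) (hG : GM d₀ π F) (c : Option (Fin n)) (f : MvPolynomial (Fin n) 𝕜)
    (hf : ∀ (𝔽 : Type) [Field 𝔽] [Algebra 𝕜 𝔽] (ξ : Fin n → 𝔽), (∀ i, ξ i ≠ 0) →
      (∀ g ∈ chI π F none, MvPolynomial.aeval (tw c ξ) g = 0) →
      MvPolynomial.eval₂ (algebraMap 𝕜 𝔽) ξ f = 0) :
    f ∈ chI π F c := by
  have := hG.prime c
  obtain ⟨𝔽, _, _, ξ, _, hξ⟩ := ff_of_prime (chI π F c)
  have hX : ∀ i, MvPolynomial.X i ∉ chI π F c := by
    intro i
    cases c with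
    | none =>
      have := hG.const i 0
      rwa [map_zero, sub_zero] at this
    | some a => exact (hC A 𝕜 n κ d₀ π F hG a).1 i
  have h0 : ∀ i, ξ i ≠ 0 := by
    intro i h
    refine hX i ((hξ _).1 ?_)
    rw [MvPolynomial.aeval_X, h]
  rw [← hξ, MvPolynomial.aeval_def]
  refine hf 𝔽 ξ h0 ?_
  cases c with
  | none => exact fun g hg => (hξ g).2 hg
  | some a => exact (hC A 𝕜 n κ d₀ π F hG a).2 𝔽 ξ (h0 a) fun g hg => (hξ g).2 hg

end charts

theorem mem (hC : S_CHT) : S_MEM := by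
  intro A 𝕜 _ _ n κ d₀ π F hF N W M d D 𝓡 hR
  refine ⟨?_, ?_⟩
  · intro c i s j hij hci hcj
    refine mem_chI' hC hF c _ ?_
    intro 𝔽 _ _ ξ hξ hz
    rw [eval₂_E2, MvPolynomial.eval₂_X, MvPolynomial.eval₂_X]
    have h1 := (hR 𝔽 (tw c ξ) hz (tw_ne c hξ)).1 i s j hij
    have e1 : xs (tw c ξ) i s = ξ i := by
      rcases hci with ⟨rfl, h2⟩ | ⟨rfl, h2⟩
      · simp only [xs]
        rw [tw_of_ne _ h2]
        simp
      · simp only [xs]
        rw [h2, tw_self]
        simp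
    rw [e1, tw_of_ne _ hcj] at h1
    exact h1
  · intro c v w hv hw hvw hc
    rw [hpol_eq]
    refine mem_chI' hC hF c _ ?_
    intro 𝔽 _ _ ξ hξ hz
    rw [PV_eval _ (𝓡.hBD v w hv hw hvw) (fun i _ => hξ i) (fun i _ => hξ i)]
    have h1 := (hR 𝔽 (tw c ξ) hz (tw_ne c hξ)).2 v w hv hw hvw
    rw [tw_mon c ξ v (fun i hi => (hc i hi).1), tw_mon c ξ w (fun i hi => (hc i hi).2)] at h1
    rw [h1, mul_zero]

section main

variable {C : Type} [NormedField C] [IsUltrametricDist C] {p : ℕ} [hpf : Fact p.Prime]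
  {𝕜 : Type} [Field 𝕜] {ρ : Nr C p →+* 𝕜} {n : ℕ} {κ : Type}
  {F : κ → MvPolynomial (Fin n × Bool) (Nr C p)}

/-- at most one coordinate is bad -/
theorem ob' (h0 : ∀ r : Nr C p, ρ r = 0 ↔ ‖(r : C)‖ < 1) (hG : Cor ρ F) {x : Fin n → C}
    (hx : ∀ t, MvPolynomial.eval₂ (Nr C p).subtype (chv none x) (F t) = 0) {i j : Fin n}
    (hij : i ≠ j) : ‖x i‖ = 1 ∨ ‖x j‖ = 1 := by
  by_contra hcon
  push Not at hcon
  obtain ⟨a, b, g, c1, c2, c3, c4, hmem⟩ := hG i j hij
  have h1 : MvPolynomial.eval₂ (Nr C p).subtype (chv none x) (bh i j a b g) = 0 := by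
    have h2 : Ideal.span (Set.range F) ≤
        RingHom.ker (MvPolynomial.eval₂Hom (Nr C p).subtype (chv none x)) := by
      rw [Ideal.span_le]
      rintro _ ⟨t, rfl⟩
      exact hx t
    exact h2 hmem
  refine dom (fun u v => ((g u v : Nr C p) : C)) (fun u v => Nr_le (g u v).2)
    (norm_one_of h0 c1) (norm_one_of h0 c2) (norm_one_of h0 c3) (norm_one_of h0 c4)
    hcon.1 hcon.2 ?_
  rw [← h1]
  unfold bh
  rw [MvPolynomial.eval₂_sum]
  refine Finset.sum_congr rfl fun u _ => ?_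
  rw [MvPolynomial.eval₂_sum]
  refine Finset.sum_congr rfl fun v _ => ?_
  simp [chv]

/-- the chart of a point -/
theorem exists_chart' (h0 : ∀ r : Nr C p, ρ r = 0 ↔ ‖(r : C)‖ < 1) (hG : Cor ρ F)
    {x : Fin n → C} (hx : ∀ t, MvPolynomial.eval₂ (Nr C p).subtype (chv none x) (F t) = 0) :
    ∃ c : Option (Fin n), (∀ i, ‖tw c x i‖ ≤ 1) ∧ ∀ i, c = some i ↔ 1 < ‖x i‖ := by
  by_cases h : ∃ a, 1 < ‖x a‖
  · obtain ⟨a, ha⟩ := h
    refine ⟨some a, ?_, ?_⟩
    · intro i
      by_cases hi : i = a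
      · subst hi
        rw [tw_self, norm_inv]
        exact inv_le_one_of_one_le₀ ha.le
      · rw [tw_of_ne _ (fun h => hi (Option.some.inj h).symm)]
        rcases ob' h0 hG hx hi with h1 | h1
        · exact h1.le
        · exact absurd h1 ha.ne'
    · intro i
      constructor
      · intro h
        rw [← Option.some.inj h]
        exact ha
      · intro h
        by_contra hne
        have hi : i ≠ a := fun h1 => hne (by rw [h1])
        rcases ob' h0 hG hx hi with h1 | h1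
        · exact h.ne' h1
        · exact ha.ne' h1
  · push Not at h
    exact ⟨none, h, fun i => ⟨fun h' => absurd h' (by simp), fun h' => absurd h' (not_lt.2 (h i))⟩⟩

theorem eva_le' (hE : S_EVA) (hs : Function.Surjective ρ) (hp0 : 0 < ‖(p : C)‖)
    (hp1 : ‖(p : C)‖ < 1) (h0 : ∀ r : Nr C p, ρ r = 0 ↔ ‖(r : C)‖ < 1) (hG : ∀ t, MHom (F t))
    {c : Option (Fin n)} {f : MvPolynomial (Fin n) (Nr C p)}
    (hf : MvPolynomial.map ρ f ∈ chI ρ F c) {x : Fin n → C}
    (hx : ∀ t, MvPolynomial.eval₂ (Nr C p).subtype (chv none x) (F t) = 0)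
    (hc : ∀ i, ‖tw c x i‖ ≤ 1) (hc' : ∀ a, c = some a → x a ≠ 0) :
    ‖MvPolynomial.eval₂ (Nr C p).subtype (tw c x) f‖ ≤ ‖(p : C)‖ := by
  obtain ⟨R', hR'⟩ := hE C p 𝕜 ρ hs hp0 hp1 h0 n κ F c f hf
  rw [hR' _ fun t => zero_tw _ (hG t) c x hc' (hx t)]
  refine nmul_le' le_rfl ?_
  rw [MvPolynomial.eval₂_eq']
  refine nsum_le _ _ zero_le_one fun m _ => nmul_le ?_ (nprod_le _ _ fun i _ => npow_le (hc i) _)
  exact (MvPolynomial.coeff m R').2

theorem pt2 (hE : S_EVA) : S_PT2 := by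
  classical
  intro C _ _ p _ 𝕜 _ ρ hs hp0 hp1 h0 n κ F hhom hcor N W M d D 𝓡 hM
  -- the lifts
  have hl : ∀ v w : Fin n → ℤ, ∃ h' : (Nr C p)[X][X], Bv M v → Bv M w → LI v w →
      h'.map (mapRingHom ρ) = 𝓡.h v w ∧ BD d h' := by
    intro v w
    by_cases h : Bv M v ∧ Bv M w ∧ LI v w
    · obtain ⟨h', h1, h2⟩ := exists_lift ρ hs (𝓡.hBD v w h.1 h.2.1 h.2.2)
      exact ⟨h', fun _ _ _ => ⟨h1, h2⟩⟩
    · exact ⟨0, fun a b c => absurd ⟨a, b, c⟩ h⟩
  choose ht hht using hl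
  -- the relations between monomials
  have hPV : ∀ (c : Option (Fin n)) (v w : Fin n → ℤ), Bv M v → Bv M w → LI v w →
      (∀ i, c = some i → v i = 0 ∧ w i = 0) →
      MvPolynomial.map ρ (PV (ht v w) d v w) ∈ chI ρ F c := by
    intro c v w hv hw hvw hc
    obtain ⟨e1, e2⟩ := hht v w hv hw hvw
    rw [map_PV, e1, ← hpol_eq]
    exact hM.m2 c v w hv hw hvw hc
  have hrho : ∀ v w : Fin n → ℤ, ∃ R' : MvPolynomial (Fin n) (OO C), Bv M v → Bv M w →
      LI v w → ∀ y : Fin n → C,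
      (∀ t, MvPolynomial.eval₂ (Nr C p).subtype (chv none y) (F t) = 0) →
      MvPolynomial.eval₂ (Nr C p).subtype y (PV (ht v w) d v w) =
        p * MvPolynomial.eval₂ (OO C).subtype y R' := by
    intro v w
    by_cases h : Bv M v ∧ Bv M w ∧ LI v w
    · obtain ⟨R', hR'⟩ := hE C p 𝕜 ρ hs hp0 hp1 h0 n κ F none _
        (hPV none v w h.1 h.2.1 h.2.2 (fun i hi => absurd hi (by simp)))
      exact ⟨R', fun _ _ _ => hR'⟩
    · exact ⟨0, fun a b c => absurd ⟨a, b, c⟩ h⟩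
  choose R' hR' using hrho
  refine ⟨ht, fun v w => MvPolynomial.rename (fun i => (i, false)) (R' v w) *
    (∏ i, MvPolynomial.X (i, true) ^ (-v i).toNat) ^ d *
    (∏ i, MvPolynomial.X (i, true) ^ (-w i).toNat) ^ d, hht, ?_⟩
  intro x hx
  obtain ⟨c, hc1, hc2⟩ := exists_chart' h0 hcor hx
  have hc3 : ∀ a, c = some a → x a ≠ 0 := by
    intro a ha h
    have h1 := (hc2 a).1 ha
    rw [h, norm_zero] at h1
    exact absurd h1 (by norm_num)
  refine ⟨fun i j hij => ob' h0 hcor hx hij, ?_, ?_, ?_⟩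
  · -- the relations between two coordinates
    intro i s j hij hs' hj g' hg'
    have hcj : c ≠ some j := fun h => absurd ((hc2 j).1 h) (not_lt.2 hj)
    have hci : s = false ∧ c ≠ some i ∨ s = true ∧ c = some i := by
      rcases hs' with ⟨h1, h2⟩ | ⟨h1, h2⟩
      · exact Or.inl ⟨h1, fun h => absurd ((hc2 i).1 h) (not_lt.2 h2)⟩
      · exact Or.inr ⟨h1, (hc2 i).2 h2⟩
    have hi : xs x i s = tw c x i := by
      rcases hci with ⟨rfl, h2⟩ | ⟨rfl, h2⟩
      · rw [tw_of_ne _ h2]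
        simp [xs]
      · rw [h2, tw_self]
        simp [xs]
    have hj' : x j = tw c x j := (tw_of_ne _ hcj).symm
    have hmem : MvPolynomial.map ρ (E2 MvPolynomial.C (MvPolynomial.X i) (MvPolynomial.X j) g') ∈
        chI ρ F c := by
      rw [map_E2X, hg']
      exact hM.m1 c i s j hij hci hcj
    have h2 := eva_le' hE hs hp0 hp1 h0 hhom hmem hx hc1 hc3
    rw [eval₂_E2, MvPolynomial.eval₂_X, MvPolynomial.eval₂_X, ← hi, ← hj'] at h2
    exact h2
  · -- the relations between monomials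
    intro v w hv hw hvw hsup
    have hc : ∀ i, c = some i → v i = 0 ∧ w i = 0 := by
      intro i hi
      have h1 := (hc2 i).1 hi
      by_contra hcon
      have h2 : v i ≠ 0 ∨ w i ≠ 0 := by
        by_contra h3
        push Not at h3
        exact hcon h3
      rw [hsup i h2] at h1
      exact lt_irrefl _ h1
    have h1 := eva_le' hE hs hp0 hp1 h0 hhom (hPV c v w hv hw hvw hc) hx hc1 hc3
    have hne : ∀ i, v i ≠ 0 ∨ w i ≠ 0 → ‖tw c x i‖ = 1 := by
      intro i hi
      have h2 : c ≠ some i := by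
        intro h
        rcases hi with h3 | h3
        · exact h3 (hc i h).1
        · exact h3 (hc i h).2
      rw [tw_of_ne _ h2]
      exact hsup i hi
    have hy : ∀ i, v i ≠ 0 ∨ w i ≠ 0 → tw c x i ≠ 0 := by
      intro i hi
      rw [← norm_ne_zero_iff, hne i hi]
      exact one_ne_zero
    have m1 : ‖∏ i, tw c x i ^ (-v i).toNat‖ = 1 := by
      rw [norm_prod]
      refine Finset.prod_eq_one fun i _ => ?_
      rw [norm_pow]
      by_cases hvi : v i = 0
      · simp [hvi]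
      · rw [hne i (Or.inl hvi), one_pow]
    have m2 : ‖∏ i, tw c x i ^ (-w i).toNat‖ = 1 := by
      rw [norm_prod]
      refine Finset.prod_eq_one fun i _ => ?_
      rw [norm_pow]
      by_cases hwi : w i = 0
      · simp [hwi]
      · rw [hne i (Or.inr hwi), one_pow]
    rw [PV_eval _ (hht v w hv hw hvw).2 (fun i hi => hy i (Or.inl hi))
      (fun i hi => hy i (Or.inr hi)), tw_mon c x v (fun i hi => (hc i hi).1),
      tw_mon c x w (fun i hi => (hc i hi).2), norm_mul, norm_mul, norm_pow, norm_pow, m1, m2,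
      one_pow, one_mul, one_mul] at h1
    exact h1
  · -- the exact relations
    intro v w hv hw hvw hun
    have hne : ∀ i, x i ≠ 0 := by
      intro i
      rw [← norm_ne_zero_iff, hun i]
      exact one_ne_zero
    have h1 := hR' v w hv hw hvw x hx
    rw [PV_eval _ (hht v w hv hw hvw).2 (fun i _ => hne i) (fun i _ => hne i)] at h1
    have e1 : (xx x ∘ fun i => (i, false)) = x := by
      funext i
      simp [xx]
    have e2 : ∀ v : Fin n → ℤ, MvPolynomial.eval₂ (OO C).subtype (xx x)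
        (∏ i, MvPolynomial.X (i, true) ^ (-v i).toNat) = (∏ i, x i ^ (-v i).toNat)⁻¹ := by
      intro v
      rw [MvPolynomial.eval₂_prod, ← Finset.prod_inv_distrib]
      refine Finset.prod_congr rfl fun i _ => ?_
      rw [MvPolynomial.eval₂_pow, MvPolynomial.eval₂_X, ← inv_pow]
      simp [xx]
    have q1 : ∏ i, x i ^ (-v i).toNat ≠ 0 :=
      Finset.prod_ne_zero_iff.2 fun i _ => pow_ne_zero _ (hne i)
    have q2 : ∏ i, x i ^ (-w i).toNat ≠ 0 :=
      Finset.prod_ne_zero_iff.2 fun i _ => pow_ne_zero _ (hne i)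
    rw [MvPolynomial.eval₂_mul, MvPolynomial.eval₂_mul, MvPolynomial.eval₂_pow,
      MvPolynomial.eval₂_pow, e2, e2, MvPolynomial.eval₂_rename, e1, ← mul_assoc, ← mul_assoc,
      ← h1, inv_pow, inv_pow]
    have q3 := pow_ne_zero d q1
    have q4 := pow_ne_zero d q2
    generalize (∏ i, x i ^ (-v i).toNat) ^ d = a at q3 ⊢
    generalize (∏ i, x i ^ (-w i).toNat) ^ d = b at q4 ⊢
    generalize E2 (Nr C p).subtype (∏ i, x i ^ v i) (∏ i, x i ^ w i) (ht v w) = e
    have h2 : a * b * e * a⁻¹ * b⁻¹ = (a * a⁻¹) * (b * b⁻¹) * e := by ring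
    rw [h2, mul_inv_cancel₀ q3, mul_inv_cancel₀ q4, one_mul, one_mul]

end main

end Pool.Agent.Y427.ZX
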